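import Pool.Agent.H58.VtC

namespace Pool.Agent.Results.MP_81f94f_an.Plateau

open MeasureTheory Filter Set Pool.Agent.H58.Vt Pool.Agent.H58.VtDefs

/-- A sequence with (i)-(iv) that is the sequence of norms of powers of no element of `M(0,1)` and
of no element of `L¹[0,1]`. -/
theorem result :
    ∃ ω : ℕ → ℝ, (∀ n, 1 ≤ n → 0 ≤ ω n) ∧ (∀ m n, 1 ≤ m → 1 ≤ n → ω (m + n) ≤ ω m * ω n) ∧
      Tendsto (fun n : ℕ => ω n ^ (1 / (n : ℝ))) atTop (nhds 0) ∧
      AntitoneOn (fun n : ℕ => ω n ^ (1 / (n : ℝ))) (Ici 1) ∧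
      (¬ ∃ a ∈ MI, ∀ n, mnorm (mpow a n) = ω (n + 1)) ∧
      ¬ ∃ f : ℝ → ℂ, IntegrableOn f (Icc 0 1) ∧ ∀ n, vnorm (vpow f n) = ω (n + 1) := by
  have e : ∀ n : ℕ, 1 ≤ n → (cc n ^ n) ^ (1 / (n : ℝ)) = cc n := fun n hn => by
    rw [one_div, Real.pow_rpow_inv_natCast (cc_pos n).le (by omega)]
  refine ⟨fun n => cc n ^ n, fun n _ => (pow_pos (cc_pos n) n).le, fun m n _ _ => ?_,
    cc_lim.congr' ((eventually_ge_atTop 1).mono fun n hn => (e n hn).symm),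
    fun m hm n hn h => ?_, main_M, main_L⟩
  · simp only [pow_add]
    exact mul_le_mul (pow_le_pow_left₀ (cc_pos _).le (cc_anti (by omega)) _)
      (pow_le_pow_left₀ (cc_pos _).le (cc_anti (by omega)) _) (pow_pos (cc_pos _) _).le
      (pow_pos (cc_pos _) _).le
  · simp only [e m hm, e n hn]
    exact cc_anti h

end Pool.Agent.Results.MP_81f94f_an.Plateau
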